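import Mathlib

/-!
# Schwarz lemma with multiple zeros
-/

set_option autoImplicit false

namespace Pool.Agent.Helper21.PM

open Complex Metric Set

lemma factor_once {f : ℂ → ℂ} (hf : Differentiable ℂ f) (s : Finset ℂ) : (∀ x ∈ s, f x = 0) →
    ∃ g : ℂ → ℂ, Differentiable ℂ g ∧ ∀ z, f z = (∏ x ∈ s, (z - x)) * g z := by
  classical
  induction s using Finset.induction_on with
  | empty => intro _; exact ⟨f, hf, fun z => by simp⟩
  | insert x s hx ih =>
    intro h
    obtain ⟨g, hg, hfg⟩ := ih (fun y hy => h y (Finset.mem_insert_of_mem hy))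
    have hfx := h x (Finset.mem_insert_self _ _)
    have hprod : (∏ y ∈ s, (x - y)) ≠ 0 := by
      rw [Finset.prod_ne_zero_iff]
      intro y hy
      rw [sub_ne_zero]
      rintro rfl
      exact hx hy
    have hgx : g x = 0 := by
      have := hfg x
      rw [hfx] at this
      rcases mul_eq_zero.1 this.symm with h1 | h1
      · exact absurd h1 hprod
      · exact h1
    refine ⟨dslope g x, ?_, ?_⟩
    · have := (Complex.differentiableOn_dslope (s := Set.univ) (c := x) Filter.univ_mem).2 hg.differentiableOn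
      exact differentiableOn_univ.1 this
    intro z
    rw [Finset.prod_insert hx, hfg z]
    have : g z = (z - x) * dslope g x z := by
      have := sub_smul_dslope g x z
      rw [smul_eq_mul, hgx, sub_zero] at this
      exact this.symm
    rw [this]; ring

/-- the product has simple zeros -/
lemma order_prod (s : Finset ℂ) {x : ℂ} (hx : x ∈ s) : analyticOrderAt (fun z => ∏ y ∈ s, (z - y)) x = 1 := by
  classical
  have h1 : (fun z : ℂ => ∏ y ∈ s, (z - y)) = (fun z => z - x) * (fun z => ∏ y ∈ s.erase x, (z - y)) := by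
    funext z
    rw [Pi.mul_apply, Finset.mul_prod_erase s (fun y => z - y) hx]
  rw [h1, analyticOrderAt_mul (by fun_prop) (by fun_prop)]
  have h2 : analyticOrderAt (fun z : ℂ => ∏ y ∈ s.erase x, (z - y)) x = 0 := by
    rw [AnalyticAt.analyticOrderAt_eq_zero (by fun_prop)]
    rw [Finset.prod_ne_zero_iff]
    intro y hy
    rw [sub_ne_zero]
    exact (Finset.ne_of_mem_erase hy).symm
  have h3 : analyticOrderAt (fun z : ℂ => z - x) x = 1 := by
    have := analyticOrderAt_id_sub_const_self (𝕜 := ℂ) (c := x)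
    exact this
  rw [h2, h3, add_zero]

lemma factor_mult (s : Finset ℂ) (T : ℕ) : ∀ f : ℂ → ℂ, Differentiable ℂ f → (∀ x ∈ s, (T : ℕ∞) ≤ analyticOrderAt f x) →
    ∃ g : ℂ → ℂ, Differentiable ℂ g ∧ ∀ z, f z = (∏ x ∈ s, (z - x)) ^ T * g z := by
  induction T with
  | zero => intro f hf _; exact ⟨f, hf, fun z => by simp⟩
  | succ T ih =>
    intro f hf h
    obtain ⟨g, hg, hfg⟩ := factor_once hf s (fun x hx => by
      apply apply_eq_zero_of_analyticOrderAt_ne_zero
      intro h0
      have := h x hx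
      rw [h0] at this
      simp at this)
    have hg' : ∀ x ∈ s, (T : ℕ∞) ≤ analyticOrderAt g x := by
      intro x hx
      have h1 : f = (fun z => ∏ y ∈ s, (z - y)) * g := by
        funext z
        exact hfg z
      have h2 := h x hx
      rw [h1, analyticOrderAt_mul (by fun_prop) (hg.analyticAt x), order_prod s hx] at h2
      push_cast at h2
      rw [add_comm (T : ℕ∞) 1] at h2
      exact (ENat.add_le_add_iff_left (by simp)).1 h2
    obtain ⟨k, hk, hgk⟩ := ih g hg hg'
    refine ⟨k, hk, fun z => ?_⟩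
    rw [hfg z, hgk z]
    ring

/-- Schwarz lemma with zeros of order `T` -/
theorem schwarz_mult {f : ℂ → ℂ} (hf : Differentiable ℂ f) (s : Finset ℂ) (T : ℕ)
    (h : ∀ x ∈ s, ∀ t < T, iteratedDeriv t f x = 0) {M ρ R B : ℝ} (hM : ∀ x ∈ s, ‖x‖ ≤ M) (hM0 : 0 ≤ M) (hMR : M < R)
    (hρR : ρ ≤ R) (hB : ∀ z, ‖z‖ = R → ‖f z‖ ≤ B) {z : ℂ} (hz : ‖z‖ ≤ ρ) :
    ‖f z‖ ≤ ((ρ + M) / (R - M)) ^ (T * s.card) * B := by
  have hR : 0 < R := by linarith
  obtain ⟨g, hg, hfg⟩ := factor_mult s T f hf (fun x hx => by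
    rw [natCast_le_analyticOrderAt_iff_iteratedDeriv_eq_zero (hf.analyticAt x)]
    intro i hi
    exact h x hx i hi)
  have hB0 : 0 ≤ B := le_trans (norm_nonneg _) (hB (R : ℂ) (by rw [Complex.norm_real, Real.norm_of_nonneg hR.le]))
  have hRM : 0 < R - M := by linarith
  have hprodlow : ∀ w : ℂ, ‖w‖ = R → (R - M) ^ (T * s.card) ≤ ‖(∏ x ∈ s, (w - x)) ^ T‖ := by
    intro w hw
    rw [norm_pow, mul_comm, pow_mul]
    gcongr
    rw [norm_prod, ← Finset.prod_const]
    refine Finset.prod_le_prod (fun _ _ => hRM.le) (fun x hx => ?_)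
    have h1 := hM x hx
    have h2 : ‖w‖ ≤ ‖w - x‖ + ‖x‖ := by
      have : w = (w - x) + x := by ring
      calc ‖w‖ = ‖(w - x) + x‖ := by rw [← this]
        _ ≤ _ := norm_add_le _ _
    linarith
  have hsph : ∀ w ∈ frontier (ball (0:ℂ) R), ‖g w‖ ≤ B / (R - M) ^ (T * s.card) := by
    intro w hw
    rw [frontier_ball _ hR.ne', mem_sphere, dist_zero_right] at hw
    have h1 := hprodlow w hw
    have h2 := hB w hw
    rw [hfg w, norm_mul] at h2
    rw [le_div_iff₀ (pow_pos hRM _)]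
    calc ‖g w‖ * (R - M) ^ (T * s.card) ≤ ‖g w‖ * ‖(∏ x ∈ s, (w - x)) ^ T‖ := by gcongr
      _ = ‖(∏ x ∈ s, (w - x)) ^ T‖ * ‖g w‖ := mul_comm _ _
      _ ≤ B := h2
  have hgz : ‖g z‖ ≤ B / (R - M) ^ (T * s.card) := by
    refine norm_le_of_forall_mem_frontier_norm_le isBounded_ball hg.diffContOnCl hsph ?_
    rw [closure_ball _ hR.ne', mem_closedBall, dist_zero_right]
    exact hz.trans hρR
  have hup : ‖(∏ x ∈ s, (z - x)) ^ T‖ ≤ (ρ + M) ^ (T * s.card) := by
    rw [norm_pow, mul_comm T, pow_mul]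
    gcongr
    rw [norm_prod, ← Finset.prod_const]
    refine Finset.prod_le_prod (fun _ _ => norm_nonneg _) (fun x hx => ?_)
    have h1 := hM x hx
    have h2 : ‖z - x‖ ≤ ‖z‖ + ‖x‖ := norm_sub_le _ _
    linarith
  rw [hfg z, norm_mul, div_pow]
  calc ‖(∏ x ∈ s, (z - x)) ^ T‖ * ‖g z‖ ≤ (ρ + M) ^ (T * s.card) * (B / (R - M) ^ (T * s.card)) := by
        refine mul_le_mul hup hgz (norm_nonneg _) ?_
        exact le_trans (norm_nonneg _) hup
    _ = (ρ + M) ^ (T * s.card) / (R - M) ^ (T * s.card) * B := by ring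

end Pool.Agent.Helper21.PM
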