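import Mathlib
import Pool.Agent.Helper34.PM.Defs
import Pool.Agent.Helper21.PM.Sch

/-!
# Block A (analysis) of the transcendence measure of pi
-/

set_option autoImplicit false

namespace Pool.Agent.Helper21.PM

open Polynomial Finset

/-- Schwarz lemma for `S` zeros of order `T`. -/
theorem schwarz {F : ℂ → ℂ} (hF : Differentiable ℂ F) (S T : ℕ) (x : ℕ → ℂ)
    (hx : Set.InjOn x (Set.Iio S)) {r R1 R2 B : ℝ} (hr : ∀ s < S, ‖x s‖ ≤ r) (hr0 : 0 ≤ r)
    (hrR : r < R2) (hR1 : 0 ≤ R1) (h12 : R1 ≤ R2)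
    (hz : ∀ s < S, ∀ t < T, iteratedDeriv t F (x s) = 0)
    (hB : ∀ z : ℂ, ‖z‖ = R2 → ‖F z‖ ≤ B) (z : ℂ) (hz1 : ‖z‖ ≤ R1) :
    ‖F z‖ ≤ B * ((R1 + r) / (R2 - r)) ^ (S * T) := by
  classical
  have hcard : ((Finset.range S).image x).card = S := by
    rw [Finset.card_image_of_injOn, Finset.card_range]
    rw [Finset.coe_range]
    exact hx
  have h := schwarz_mult hF ((Finset.range S).image x) T (fun y hy t ht => by
    obtain ⟨s, hs, rfl⟩ := Finset.mem_image.1 hy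
    exact hz s (Finset.mem_range.1 hs) t ht) (M := r) (ρ := R1) (R := R2) (B := B) (fun y hy => by
    obtain ⟨s, hs, rfl⟩ := Finset.mem_image.1 hy
    exact hr s (Finset.mem_range.1 hs)) hr0 hrR h12 hB hz1
  rw [hcard, mul_comm T S, mul_comm _ B] at h
  exact h

/-- Cauchy's inequality. -/
theorem cauchy {F : ℂ → ℂ} (hF : Differentiable ℂ F) (t : ℕ) (w : ℂ) {B : ℝ}
    (hB : ∀ z : ℂ, ‖z - w‖ ≤ 1 → ‖F z‖ ≤ B) : ‖iteratedDeriv t F w‖ ≤ t.factorial * B := by
  have h := Complex.norm_iteratedDeriv_le_of_forall_mem_sphere_norm_le (c := w) (R := 1) (C := B) (f := F) t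
    one_pos hF.diffContOnCl (fun z hz => hB z (by
      rw [mem_sphere_iff_norm] at hz
      exact hz.le))
  rw [one_pow, div_one] at h
  exact h

end Pool.Agent.Helper21.PM
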